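import Pool.Agent.MP_2877d0_al.T.D.M00
import Pool.Agent.MP_2877d0_al.T.D.M01
import Pool.Agent.MP_2877d0_al.T.D.M02
import Pool.Agent.MP_2877d0_al.T.D.M03
import Pool.Agent.MP_2877d0_al.T.D.M04
import Pool.Agent.MP_2877d0_al.T.D.M05
import Pool.Agent.MP_2877d0_al.T.D.M06
import Pool.Agent.MP_2877d0_al.T.D.M07
import Pool.Agent.MP_2877d0_al.T.D.M08
import Pool.Agent.MP_2877d0_al.T.D.M09
import Pool.Agent.MP_2877d0_al.T.D.M10
import Pool.Agent.MP_2877d0_al.T.D.M11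
import Pool.Agent.MP_2877d0_al.T.D.M12
import Pool.Agent.MP_2877d0_al.T.D.M13
import Pool.Agent.MP_2877d0_al.T.D.M14
import Pool.Agent.MP_2877d0_al.T.D.M15
import Pool.Agent.MP_2877d0_al.T.D.M16
import Pool.Agent.MP_2877d0_al.T.D.M17
import Pool.Agent.MP_2877d0_al.T.D.M18
import Pool.Agent.MP_2877d0_al.T.D.M19
import Pool.Agent.MP_2877d0_al.T.D.M20
import Pool.Agent.MP_2877d0_al.T.D.M21
import Pool.Agent.MP_2877d0_al.T.D.M22
import Pool.Agent.MP_2877d0_al.T.D.M23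
import Pool.Agent.MP_2877d0_al.T.D.M24
import Pool.Agent.MP_2877d0_al.T.D.M25
import Pool.Agent.MP_2877d0_al.T.D.M26
import Pool.Agent.MP_2877d0_al.T.D.M27
import Pool.Agent.MP_2877d0_al.T.D.M28
import Pool.Agent.MP_2877d0_al.T.D.M29
import Pool.Agent.MP_2877d0_al.T.D.M30
import Pool.Agent.MP_2877d0_al.T.D.M31
import Pool.Agent.MP_2877d0_al.T.D.M32
import Pool.Agent.MP_2877d0_al.T.D.M33
import Pool.Agent.MP_2877d0_al.T.D.M34
import Pool.Agent.MP_2877d0_al.T.D.M35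
import Pool.Agent.MP_2877d0_al.T.D.M36
import Pool.Agent.MP_2877d0_al.T.D.M37
import Pool.Agent.MP_2877d0_al.T.D.M38
import Pool.Agent.MP_2877d0_al.T.D.M39
import Pool.Agent.MP_2877d0_al.T.D.M40
import Pool.Agent.MP_2877d0_al.T.D.M41
import Pool.Agent.MP_2877d0_al.T.D.M42
import Pool.Agent.MP_2877d0_al.T.D.M43
import Pool.Agent.MP_2877d0_al.T.D.M44
import Pool.Agent.MP_2877d0_al.T.D.M45
import Pool.Agent.MP_2877d0_al.T.D.M46
import Pool.Agent.MP_2877d0_al.T.D.M47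
import Pool.Agent.MP_2877d0_al.T.D.M48
import Pool.Agent.MP_2877d0_al.T.D.M49
import Pool.Agent.MP_2877d0_al.T.D.M50
import Pool.Agent.MP_2877d0_al.T.D.M51
import Pool.Agent.MP_2877d0_al.T.D.M52
import Pool.Agent.MP_2877d0_al.T.D.M53
import Pool.Agent.MP_2877d0_al.T.D.M54
import Pool.Agent.MP_2877d0_al.T.D.M55
import Pool.Agent.MP_2877d0_al.T.D.M56
import Pool.Agent.MP_2877d0_al.T.D.M57
import Pool.Agent.MP_2877d0_al.T.D.M58
import Pool.Agent.MP_2877d0_al.T.D.M59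
import Pool.Agent.MP_2877d0_al.T.D.M60
import Pool.Agent.MP_2877d0_al.T.D.M61
import Pool.Agent.MP_2877d0_al.T.D.M62
import Pool.Agent.MP_2877d0_al.T.D.M63
import Pool.Agent.MP_2877d0_al.T.D.M64
import Pool.Agent.MP_2877d0_al.T.D.M65

namespace Pool.Agent.MP_2877d0_al.T.D

set_option maxRecDepth 100000

theorem l675 : Rg (Done ct nt 491) 675 676 := Rg.ofP 675 676 2 t675 (by decide +kernel)
  (Rg.trans (Rg.one 0 1 rfl p675_0) (Rg.one 1 2 rfl p675_1))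

theorem l831 : Rg (Done ct nt 491) 831 832 := Rg.ofP 831 832 3 t831 (by decide +kernel)
  (Rg.trans (Rg.one 0 1 rfl p831_0) (Rg.trans (Rg.one 1 2 rfl p831_1) (Rg.one 2 3 rfl p831_2)))

theorem l905 : Rg (Done ct nt 491) 905 906 := Rg.ofP 905 906 7 t905 (by decide +kernel)
  (Rg.trans (Rg.trans (Rg.one 0 1 rfl p905_0) (Rg.trans (Rg.one 1 2 rfl p905_1) (Rg.one 2 3 rfl p905_2))) (Rg.trans (Rg.trans (Rg.one 3 4 rfl p905_3) (Rg.one 4 5 rfl p905_4)) (Rg.trans (Rg.one 5 6 rfl p905_5) (Rg.one 6 7 rfl p905_6))))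

theorem l927 : Rg (Done ct nt 491) 927 928 := Rg.ofP 927 928 4 t927 (by decide +kernel)
  (Rg.trans (Rg.trans (Rg.one 0 1 rfl p927_0) (Rg.one 1 2 rfl p927_1)) (Rg.trans (Rg.one 2 3 rfl p927_2) (Rg.one 3 4 rfl p927_3)))

theorem l956 : Rg (Done ct nt 491) 956 957 := Rg.ofP 956 957 3 t956 (by decide +kernel)
  (Rg.trans (Rg.one 0 1 rfl p956_0) (Rg.trans (Rg.one 1 2 rfl p956_1) (Rg.one 2 3 rfl p956_2)))

theorem l1019 : Rg (Done ct nt 491) 1019 1020 := Rg.ofP 1019 1020 3 t1019 (by decide +kernel)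
  (Rg.trans (Rg.one 0 1 rfl p1019_0) (Rg.trans (Rg.one 1 2 rfl p1019_1) (Rg.one 2 3 rfl p1019_2)))

theorem l1045 : Rg (Done ct nt 491) 1045 1046 := Rg.ofP 1045 1046 3 t1045 (by decide +kernel)
  (Rg.trans (Rg.one 0 1 rfl p1045_0) (Rg.trans (Rg.one 1 2 rfl p1045_1) (Rg.one 2 3 rfl p1045_2)))

theorem l1072 : Rg (Done ct nt 491) 1072 1073 := Rg.ofP 1072 1073 3 t1072 (by decide +kernel)
  (Rg.trans (Rg.one 0 1 rfl p1072_0) (Rg.trans (Rg.one 1 2 rfl p1072_1) (Rg.one 2 3 rfl p1072_2)))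

theorem l1096 : Rg (Done ct nt 491) 1096 1097 := Rg.ofP 1096 1097 3 t1096 (by decide +kernel)
  (Rg.trans (Rg.one 0 1 rfl p1096_0) (Rg.trans (Rg.one 1 2 rfl p1096_1) (Rg.one 2 3 rfl p1096_2)))

theorem l1140 : Rg (Done ct nt 491) 1140 1141 := Rg.ofP 1140 1141 13 t1140 (by decide +kernel)
  (Rg.trans (Rg.trans (Rg.trans (Rg.one 0 1 rfl p1140_0) (Rg.trans (Rg.one 1 2 rfl p1140_1) (Rg.one 2 3 rfl p1140_2))) (Rg.trans (Rg.one 3 4 rfl p1140_3) (Rg.trans (Rg.one 4 5 rfl p1140_4) (Rg.one 5 6 rfl p1140_5)))) (Rg.trans (Rg.trans (Rg.one 6 7 rfl p1140_6) (Rg.trans (Rg.one 7 8 rfl p1140_7) (Rg.one 8 9 rfl p1140_8))) (Rg.trans (Rg.trans (Rg.one 9 10 rfl p1140_9) (Rg.one 10 11 rfl p1140_10)) (Rg.trans (Rg.one 11 12 rfl p1140_11) (Rg.one 12 13 rfl p1140_12)))))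

theorem l1699 : Rg (Done ct nt 491) 1699 1700 := Rg.ofP 1699 1700 5 t1699 (by decide +kernel)
  (Rg.trans (Rg.trans (Rg.one 0 1 rfl p1699_0) (Rg.one 1 2 rfl p1699_1)) (Rg.trans (Rg.one 2 3 rfl p1699_2) (Rg.trans (Rg.one 3 4 rfl p1699_3) (Rg.one 4 5 rfl p1699_4))))

theorem l1789 : Rg (Done ct nt 491) 1789 1790 := Rg.ofP 1789 1790 2 t1789 (by decide +kernel)
  (Rg.trans (Rg.one 0 1 rfl p1789_0) (Rg.one 1 2 rfl p1789_1))

theorem l1812 : Rg (Done ct nt 491) 1812 1813 := Rg.ofP 1812 1813 2 t1812 (by decide +kernel)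
  (Rg.trans (Rg.one 0 1 rfl p1812_0) (Rg.one 1 2 rfl p1812_1))

theorem l1857 : Rg (Done ct nt 491) 1857 1858 := Rg.ofP 1857 1858 3 t1857 (by decide +kernel)
  (Rg.trans (Rg.one 0 1 rfl p1857_0) (Rg.trans (Rg.one 1 2 rfl p1857_1) (Rg.one 2 3 rfl p1857_2)))

theorem l1967 : Rg (Done ct nt 491) 1967 1968 := Rg.ofP 1967 1968 30 t1967 (by decide +kernel)
  (Rg.trans (Rg.trans (Rg.trans (Rg.trans (Rg.one 0 1 rfl p1967_0) (Rg.trans (Rg.one 1 2 rfl p1967_1) (Rg.one 2 3 rfl p1967_2))) (Rg.trans (Rg.trans (Rg.one 3 4 rfl p1967_3) (Rg.one 4 5 rfl p1967_4)) (Rg.trans (Rg.one 5 6 rfl p1967_5) (Rg.one 6 7 rfl p1967_6)))) (Rg.trans (Rg.trans (Rg.trans (Rg.one 7 8 rfl p1967_7) (Rg.one 8 9 rfl p1967_8)) (Rg.trans (Rg.one 9 10 rfl p1967_9) (Rg.one 10 11 rfl p1967_10))) (Rg.trans (Rg.trans (Rg.one 11 12 rfl p1967_11) (Rg.one 12 13 rfl p1967_12)) (Rg.trans (Rg.one 13 14 rfl p1967_13) (Rg.one 14 15 rfl p1967_14)))))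 (Rg.trans (Rg.trans (Rg.trans (Rg.one 15 16 rfl p1967_15) (Rg.trans (Rg.one 16 17 rfl p1967_16) (Rg.one 17 18 rfl p1967_17))) (Rg.trans (Rg.trans (Rg.one 18 19 rfl p1967_18) (Rg.one 19 20 rfl p1967_19)) (Rg.trans (Rg.one 20 21 rfl p1967_20) (Rg.one 21 22 rfl p1967_21)))) (Rg.trans (Rg.trans (Rg.trans (Rg.one 22 23 rfl p1967_22) (Rg.one 23 24 rfl p1967_23)) (Rg.trans (Rg.one 24 25 rfl p1967_24) (Rg.one 25 26 rfl p1967_25))) (Rg.trans (Rg.trans (Rg.one 26 27 rfl p1967_26) (Rg.one 27 28 rfl p1967_27)) (Rg.trans (Rg.one 28 29 rfl p1967_28) (Rg.one 29 30 rfl p1967_29))))))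

theorem allDone : Rg (Done ct nt 491) 0 1970 :=
  (Rg.trans (Rg.trans (Rg.trans (Rg.trans (Rg.trans (Rg.trans (Rg.trans (Rg.trans (Rg.trans (Rg.trans l0 (Rg.trans l1 l2)) (Rg.trans (Rg.trans l3 l4) (Rg.trans l5 l6))) (Rg.trans (Rg.trans l7 (Rg.trans l8 l10)) (Rg.trans (Rg.trans l11 l12) (Rg.trans l13 l14)))) (Rg.trans (Rg.trans (Rg.trans l15 (Rg.trans l17 l18)) (Rg.trans (Rg.trans l19 l20) (Rg.trans l21 l22))) (Rg.trans (Rg.trans l23 (Rg.trans l25 l26)) (Rg.trans (Rg.trans l27 l29) (Rg.trans l30 l31))))) (Rg.trans (Rg.trans (Rg.trans (Rg.trans l32 (Rg.trans l34 l35)) (Rg.trans (Rg.trans l36 l37) (Rg.trans l38 l39))) (Rg.trans (Rg.trans l40 (Rg.trans l41 l43)) (Rg.trans (Rg.trans l45 l46) (Rg.trans l48 l50)))) (Rg.trans (Rg.trans (Rg.trans l51 (Rg.trans l52 l53)) (Rg.trans (Rg.trans l54 l55) (Rg.trans l57 l58))) (Rg.trans (Rg.trans l59 (Rg.trans l60 l61)) (Rg.trans (Rg.trans l62 l63)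 (Rg.trans l64 l65)))))) (Rg.trans (Rg.trans (Rg.trans (Rg.trans (Rg.trans l66 (Rg.trans l68 l69)) (Rg.trans (Rg.trans l70 l71) (Rg.trans l72 l73))) (Rg.trans (Rg.trans l74 (Rg.trans l75 l76)) (Rg.trans (Rg.trans l77 l78) (Rg.trans l79 l80)))) (Rg.trans (Rg.trans (Rg.trans l81 (Rg.trans l82 l83)) (Rg.trans (Rg.trans l84 l85) (Rg.trans l86 l88))) (Rg.trans (Rg.trans l89 (Rg.trans l90 l91)) (Rg.trans (Rg.trans l92 l93) (Rg.trans l94 l95))))) (Rg.trans (Rg.trans (Rg.trans (Rg.trans l96 (Rg.trans l97 l98)) (Rg.trans (Rg.trans l99 l100) (Rg.trans l101 l102))) (Rg.trans (Rg.trans l103 (Rg.trans l104 l105)) (Rg.trans (Rg.trans l106 l107) (Rg.trans l108 l109)))) (Rg.trans (Rg.trans (Rg.trans l110 (Rg.trans l111 l112)) (Rg.trans (Rg.trans l113 l114) (Rg.trans l115 l116))) (Rg.trans (Rg.trans l117 (Rg.trans l118 l119)) (Rg.trans (Rg.trans l120 l121) (Rg.trans l122 l123))))))) (Rg.trans (Rg.trans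 (Rg.trans (Rg.trans (Rg.trans (Rg.trans l124 (Rg.trans l125 l126)) (Rg.trans (Rg.trans l127 l128) (Rg.trans l129 l130))) (Rg.trans (Rg.trans l131 (Rg.trans l132 l133)) (Rg.trans (Rg.trans l134 l136) (Rg.trans l138 l139)))) (Rg.trans (Rg.trans (Rg.trans l140 (Rg.trans l141 l142)) (Rg.trans (Rg.trans l143 l144) (Rg.trans l145 l146))) (Rg.trans (Rg.trans l147 (Rg.trans l148 l149)) (Rg.trans (Rg.trans l150 l151) (Rg.trans l152 l153))))) (Rg.trans (Rg.trans (Rg.trans (Rg.trans l154 (Rg.trans l155 l157)) (Rg.trans (Rg.trans l158 l159) (Rg.trans l160 l161))) (Rg.trans (Rg.trans l162 (Rg.trans l163 l164)) (Rg.trans (Rg.trans l165 l166) (Rg.trans l167 l168)))) (Rg.trans (Rg.trans (Rg.trans l169 (Rg.trans l170 l171)) (Rg.trans (Rg.trans l172 l173) (Rg.trans l174 l175))) (Rg.trans (Rg.trans l176 (Rg.trans l177 l178)) (Rg.trans (Rg.trans l179 l180) (Rg.trans l181 l182)))))) (Rg.trans (Rg.trans (Rg.trans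 (Rg.trans (Rg.trans l183 (Rg.trans l184 l185)) (Rg.trans (Rg.trans l186 l187) (Rg.trans l188 l189))) (Rg.trans (Rg.trans l190 (Rg.trans l191 l192)) (Rg.trans (Rg.trans l193 l194) (Rg.trans l195 l197)))) (Rg.trans (Rg.trans (Rg.trans l198 (Rg.trans l200 l201)) (Rg.trans (Rg.trans l202 l203) (Rg.trans l204 l205))) (Rg.trans (Rg.trans l206 (Rg.trans l207 l208)) (Rg.trans (Rg.trans l209 l210) (Rg.trans l212 l213))))) (Rg.trans (Rg.trans (Rg.trans (Rg.trans l214 (Rg.trans l215 l216)) (Rg.trans (Rg.trans l217 l218) (Rg.trans l219 l220))) (Rg.trans (Rg.trans l221 (Rg.trans l222 l223)) (Rg.trans (Rg.trans l224 l225) (Rg.trans l226 l227)))) (Rg.trans (Rg.trans (Rg.trans l228 (Rg.trans l229 l230)) (Rg.trans (Rg.trans l231 l232) (Rg.trans l233 l234))) (Rg.trans (Rg.trans l235 (Rg.trans l236 l238)) (Rg.trans (Rg.trans l239 l240) (Rg.trans l241 l242)))))))) (Rg.trans (Rg.trans (Rg.trans (Rg.trans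 (Rg.trans (Rg.trans (Rg.trans l243 (Rg.trans l244 l245)) (Rg.trans (Rg.trans l246 l247) (Rg.trans l248 l249))) (Rg.trans (Rg.trans l250 (Rg.trans l251 l252)) (Rg.trans (Rg.trans l253 l254) (Rg.trans l255 l256)))) (Rg.trans (Rg.trans (Rg.trans l257 (Rg.trans l258 l260)) (Rg.trans (Rg.trans l261 l262) (Rg.trans l264 l265))) (Rg.trans (Rg.trans l266 (Rg.trans l267 l268)) (Rg.trans (Rg.trans l269 l270) (Rg.trans l271 l272))))) (Rg.trans (Rg.trans (Rg.trans (Rg.trans l273 (Rg.trans l274 l275)) (Rg.trans (Rg.trans l276 l277) (Rg.trans l278 l279))) (Rg.trans (Rg.trans l280 (Rg.trans l281 l282)) (Rg.trans (Rg.trans l284 l285) (Rg.trans l286 l287)))) (Rg.trans (Rg.trans (Rg.trans l288 (Rg.trans l289 l290)) (Rg.trans (Rg.trans l291 l292) (Rg.trans l293 l294))) (Rg.trans (Rg.trans l295 (Rg.trans l296 l297)) (Rg.trans (Rg.trans l298 l299) (Rg.trans l300 l301)))))) (Rg.trans (Rg.trans (Rg.trans (Rg.trans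 (Rg.trans l302 (Rg.trans l303 l304)) (Rg.trans (Rg.trans l305 l306) (Rg.trans l307 l308))) (Rg.trans (Rg.trans l309 (Rg.trans l310 l312)) (Rg.trans (Rg.trans l313 l314) (Rg.trans l315 l318)))) (Rg.trans (Rg.trans (Rg.trans l320 (Rg.trans l322 l323)) (Rg.trans (Rg.trans l324 l325) (Rg.trans l326 l327))) (Rg.trans (Rg.trans l328 (Rg.trans l329 l330)) (Rg.trans (Rg.trans l331 l332) (Rg.trans l333 l334))))) (Rg.trans (Rg.trans (Rg.trans (Rg.trans l335 (Rg.trans l336 l337)) (Rg.trans (Rg.trans l338 l339) (Rg.trans l341 l342))) (Rg.trans (Rg.trans l343 (Rg.trans l344 l345)) (Rg.trans (Rg.trans l346 l347) (Rg.trans l348 l349)))) (Rg.trans (Rg.trans (Rg.trans l350 (Rg.trans l351 l353)) (Rg.trans (Rg.trans l355 l356) (Rg.trans l357 l358))) (Rg.trans (Rg.trans l359 (Rg.trans l361 l362)) (Rg.trans (Rg.trans l363 l364) (Rg.trans l365 l366))))))) (Rg.trans (Rg.trans (Rg.trans (Rg.trans (Rg.trans (Rg.trans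 l367 (Rg.trans l368 l369)) (Rg.trans (Rg.trans l370 l371) (Rg.trans l372 l373))) (Rg.trans (Rg.trans l374 (Rg.trans l375 l376)) (Rg.trans (Rg.trans l377 l378) (Rg.trans l379 l380)))) (Rg.trans (Rg.trans (Rg.trans l381 (Rg.trans l382 l384)) (Rg.trans (Rg.trans l385 l386) (Rg.trans l387 l388))) (Rg.trans (Rg.trans l389 (Rg.trans l390 l391)) (Rg.trans (Rg.trans l392 l393) (Rg.trans l395 l396))))) (Rg.trans (Rg.trans (Rg.trans (Rg.trans l397 (Rg.trans l399 l400)) (Rg.trans (Rg.trans l401 l403) (Rg.trans l404 l405))) (Rg.trans (Rg.trans l406 (Rg.trans l407 l408)) (Rg.trans (Rg.trans l409 l410) (Rg.trans l411 l412)))) (Rg.trans (Rg.trans (Rg.trans l414 (Rg.trans l415 l416)) (Rg.trans (Rg.trans l417 l418) (Rg.trans l419 l420))) (Rg.trans (Rg.trans l421 (Rg.trans l422 l423)) (Rg.trans (Rg.trans l424 l426) (Rg.trans l427 l428)))))) (Rg.trans (Rg.trans (Rg.trans (Rg.trans (Rg.trans l430 (Rg.trans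 l431 l433)) (Rg.trans (Rg.trans l434 l435) (Rg.trans l436 l437))) (Rg.trans (Rg.trans l439 (Rg.trans l440 l441)) (Rg.trans (Rg.trans l442 l444) (Rg.trans l445 l446)))) (Rg.trans (Rg.trans (Rg.trans l448 (Rg.trans l449 l450)) (Rg.trans (Rg.trans l451 l452) (Rg.trans l453 l454))) (Rg.trans (Rg.trans l455 (Rg.trans l456 l457)) (Rg.trans (Rg.trans l458 l459) (Rg.trans l460 l461))))) (Rg.trans (Rg.trans (Rg.trans (Rg.trans l462 (Rg.trans l463 l464)) (Rg.trans (Rg.trans l465 l466) (Rg.trans l467 l468))) (Rg.trans (Rg.trans l469 (Rg.trans l470 l471)) (Rg.trans (Rg.trans l472 l473) (Rg.trans l475 l476)))) (Rg.trans (Rg.trans (Rg.trans l477 (Rg.trans l478 l479)) (Rg.trans (Rg.trans l480 l481) (Rg.trans l482 l483))) (Rg.trans (Rg.trans l484 (Rg.trans l485 l486)) (Rg.trans (Rg.trans l487 l488) (Rg.trans l489 l490))))))))) (Rg.trans (Rg.trans (Rg.trans (Rg.trans (Rg.trans (Rg.trans (Rg.trans (Rg.trans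 l491 (Rg.trans l492 l493)) (Rg.trans (Rg.trans l494 l495) (Rg.trans l496 l497))) (Rg.trans (Rg.trans l498 (Rg.trans l499 l500)) (Rg.trans (Rg.trans l501 l502) (Rg.trans l503 l504)))) (Rg.trans (Rg.trans (Rg.trans l505 (Rg.trans l506 l507)) (Rg.trans (Rg.trans l508 l509) (Rg.trans l510 l511))) (Rg.trans (Rg.trans l512 (Rg.trans l513 l514)) (Rg.trans (Rg.trans l515 l516) (Rg.trans l517 l518))))) (Rg.trans (Rg.trans (Rg.trans (Rg.trans l519 (Rg.trans l520 l521)) (Rg.trans (Rg.trans l522 l524) (Rg.trans l525 l526))) (Rg.trans (Rg.trans l527 (Rg.trans l528 l529)) (Rg.trans (Rg.trans l530 l531) (Rg.trans l532 l533)))) (Rg.trans (Rg.trans (Rg.trans l534 (Rg.trans l535 l536)) (Rg.trans (Rg.trans l539 l540) (Rg.trans l541 l543))) (Rg.trans (Rg.trans l544 (Rg.trans l545 l546)) (Rg.trans (Rg.trans l548 l549) (Rg.trans l550 l552)))))) (Rg.trans (Rg.trans (Rg.trans (Rg.trans (Rg.trans l553 (Rg.trans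 l554 l555)) (Rg.trans (Rg.trans l556 l557) (Rg.trans l558 l559))) (Rg.trans (Rg.trans l560 (Rg.trans l561 l562)) (Rg.trans (Rg.trans l563 l564) (Rg.trans l565 l566)))) (Rg.trans (Rg.trans (Rg.trans l567 (Rg.trans l568 l569)) (Rg.trans (Rg.trans l570 l571) (Rg.trans l572 l573))) (Rg.trans (Rg.trans l574 (Rg.trans l575 l576)) (Rg.trans (Rg.trans l577 l578) (Rg.trans l579 l580))))) (Rg.trans (Rg.trans (Rg.trans (Rg.trans l581 (Rg.trans l582 l583)) (Rg.trans (Rg.trans l584 l585) (Rg.trans l586 l587))) (Rg.trans (Rg.trans l588 (Rg.trans l589 l590)) (Rg.trans (Rg.trans l592 l594) (Rg.trans l595 l596)))) (Rg.trans (Rg.trans (Rg.trans l597 (Rg.trans l599 l600)) (Rg.trans (Rg.trans l601 l602) (Rg.trans l603 l605))) (Rg.trans (Rg.trans l606 (Rg.trans l607 l608)) (Rg.trans (Rg.trans l609 l610) (Rg.trans l611 l612))))))) (Rg.trans (Rg.trans (Rg.trans (Rg.trans (Rg.trans (Rg.trans l613 (Rg.trans l614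 l615)) (Rg.trans (Rg.trans l616 l617) (Rg.trans l618 l619))) (Rg.trans (Rg.trans l620 (Rg.trans l621 l622)) (Rg.trans (Rg.trans l623 l624) (Rg.trans l626 l627)))) (Rg.trans (Rg.trans (Rg.trans l628 (Rg.trans l629 l630)) (Rg.trans (Rg.trans l631 l632) (Rg.trans l633 l634))) (Rg.trans (Rg.trans l635 (Rg.trans l636 l638)) (Rg.trans (Rg.trans l639 l640) (Rg.trans l641 l642))))) (Rg.trans (Rg.trans (Rg.trans (Rg.trans l643 (Rg.trans l644 l645)) (Rg.trans (Rg.trans l646 l648) (Rg.trans l649 l650))) (Rg.trans (Rg.trans l651 (Rg.trans l652 l653)) (Rg.trans (Rg.trans l654 l655) (Rg.trans l656 l657)))) (Rg.trans (Rg.trans (Rg.trans l658 (Rg.trans l660 l661)) (Rg.trans (Rg.trans l662 l664) (Rg.trans l665 l666))) (Rg.trans (Rg.trans l667 (Rg.trans l668 l669)) (Rg.trans (Rg.trans l670 l671) (Rg.trans l672 l673)))))) (Rg.trans (Rg.trans (Rg.trans (Rg.trans (Rg.trans l674 (Rg.trans l675 l676)) (Rg.trans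 (Rg.trans l678 l679) (Rg.trans l680 l681))) (Rg.trans (Rg.trans l682 (Rg.trans l683 l684)) (Rg.trans (Rg.trans l685 l686) (Rg.trans l687 l689)))) (Rg.trans (Rg.trans (Rg.trans l690 (Rg.trans l691 l692)) (Rg.trans (Rg.trans l694 l695) (Rg.trans l696 l697))) (Rg.trans (Rg.trans l698 (Rg.trans l699 l700)) (Rg.trans (Rg.trans l701 l702) (Rg.trans l703 l704))))) (Rg.trans (Rg.trans (Rg.trans (Rg.trans l705 (Rg.trans l707 l708)) (Rg.trans (Rg.trans l709 l710) (Rg.trans l711 l712))) (Rg.trans (Rg.trans l713 (Rg.trans l714 l715)) (Rg.trans (Rg.trans l716 l717) (Rg.trans l718 l719)))) (Rg.trans (Rg.trans (Rg.trans l720 (Rg.trans l721 l722)) (Rg.trans (Rg.trans l723 l724) (Rg.trans l725 l726))) (Rg.trans (Rg.trans l727 (Rg.trans l728 l729)) (Rg.trans (Rg.trans l731 l732) (Rg.trans l733 l734)))))))) (Rg.trans (Rg.trans (Rg.trans (Rg.trans (Rg.trans (Rg.trans (Rg.trans l735 (Rg.trans l736 l737))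 (Rg.trans (Rg.trans l738 l739) (Rg.trans l740 l741))) (Rg.trans (Rg.trans l742 (Rg.trans l743 l744)) (Rg.trans (Rg.trans l745 l746) (Rg.trans l748 l749)))) (Rg.trans (Rg.trans (Rg.trans l750 (Rg.trans l751 l753)) (Rg.trans (Rg.trans l754 l755) (Rg.trans l756 l757))) (Rg.trans (Rg.trans l758 (Rg.trans l759 l760)) (Rg.trans (Rg.trans l761 l762) (Rg.trans l763 l764))))) (Rg.trans (Rg.trans (Rg.trans (Rg.trans l766 (Rg.trans l767 l768)) (Rg.trans (Rg.trans l769 l770) (Rg.trans l771 l773))) (Rg.trans (Rg.trans l774 (Rg.trans l775 l776)) (Rg.trans (Rg.trans l777 l778) (Rg.trans l780 l781)))) (Rg.trans (Rg.trans (Rg.trans l783 (Rg.trans l784 l785)) (Rg.trans (Rg.trans l786 l787) (Rg.trans l788 l789))) (Rg.trans (Rg.trans l790 (Rg.trans l791 l792)) (Rg.trans (Rg.trans l793 l794) (Rg.trans l796 l797)))))) (Rg.trans (Rg.trans (Rg.trans (Rg.trans (Rg.trans l798 (Rg.trans l799 l800)) (Rg.trans (Rg.trans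 l801 l802) (Rg.trans l803 l804))) (Rg.trans (Rg.trans l805 (Rg.trans l806 l807)) (Rg.trans (Rg.trans l808 l809) (Rg.trans l810 l811)))) (Rg.trans (Rg.trans (Rg.trans l812 (Rg.trans l813 l814)) (Rg.trans (Rg.trans l815 l816) (Rg.trans l817 l818))) (Rg.trans (Rg.trans l819 (Rg.trans l820 l821)) (Rg.trans (Rg.trans l822 l823) (Rg.trans l824 l825))))) (Rg.trans (Rg.trans (Rg.trans (Rg.trans l826 (Rg.trans l827 l828)) (Rg.trans (Rg.trans l829 l830) (Rg.trans l831 l832))) (Rg.trans (Rg.trans l833 (Rg.trans l834 l835)) (Rg.trans (Rg.trans l836 l837) (Rg.trans l838 l839)))) (Rg.trans (Rg.trans (Rg.trans l840 (Rg.trans l841 l842)) (Rg.trans (Rg.trans l843 l844) (Rg.trans l845 l846))) (Rg.trans (Rg.trans l847 (Rg.trans l848 l850)) (Rg.trans (Rg.trans l851 l852) (Rg.trans l853 l854))))))) (Rg.trans (Rg.trans (Rg.trans (Rg.trans (Rg.trans (Rg.trans l855 (Rg.trans l856 l857)) (Rg.trans (Rg.trans l858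 l860) (Rg.trans l861 l862))) (Rg.trans (Rg.trans l863 (Rg.trans l864 l865)) (Rg.trans (Rg.trans l866 l867) (Rg.trans l868 l869)))) (Rg.trans (Rg.trans (Rg.trans l870 (Rg.trans l871 l872)) (Rg.trans (Rg.trans l873 l874) (Rg.trans l875 l876))) (Rg.trans (Rg.trans l877 (Rg.trans l878 l879)) (Rg.trans (Rg.trans l880 l881) (Rg.trans l882 l883))))) (Rg.trans (Rg.trans (Rg.trans (Rg.trans l884 (Rg.trans l885 l886)) (Rg.trans (Rg.trans l887 l888) (Rg.trans l889 l890))) (Rg.trans (Rg.trans l891 (Rg.trans l892 l893)) (Rg.trans (Rg.trans l894 l895) (Rg.trans l896 l897)))) (Rg.trans (Rg.trans (Rg.trans l898 (Rg.trans l899 l900)) (Rg.trans (Rg.trans l901 l902) (Rg.trans l903 l904))) (Rg.trans (Rg.trans l905 (Rg.trans l906 l908)) (Rg.trans (Rg.trans l909 l910) (Rg.trans l911 l912)))))) (Rg.trans (Rg.trans (Rg.trans (Rg.trans (Rg.trans l913 (Rg.trans l914 l915)) (Rg.trans (Rg.trans l916 l917) (Rg.trans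 l918 l919))) (Rg.trans (Rg.trans l920 (Rg.trans l921 l922)) (Rg.trans (Rg.trans l923 l924) (Rg.trans l925 l926)))) (Rg.trans (Rg.trans (Rg.trans l927 (Rg.trans l928 l929)) (Rg.trans (Rg.trans l930 l931) (Rg.trans l932 l933))) (Rg.trans (Rg.trans l934 (Rg.trans l935 l936)) (Rg.trans (Rg.trans l937 l938) (Rg.trans l939 l940))))) (Rg.trans (Rg.trans (Rg.trans (Rg.trans l941 (Rg.trans l942 l943)) (Rg.trans (Rg.trans l944 l945) (Rg.trans l946 l947))) (Rg.trans (Rg.trans l948 (Rg.trans l949 l950)) (Rg.trans (Rg.trans l951 l952) (Rg.trans l953 l954)))) (Rg.trans (Rg.trans (Rg.trans l955 (Rg.trans l956 l957)) (Rg.trans (Rg.trans l958 l959) (Rg.trans l960 l961))) (Rg.trans (Rg.trans (Rg.trans l962 l963) (Rg.trans l964 l965)) (Rg.trans (Rg.trans l966 l967) (Rg.trans l968 l969)))))))))) (Rg.trans (Rg.trans (Rg.trans (Rg.trans (Rg.trans (Rg.trans (Rg.trans (Rg.trans (Rg.trans l970 (Rg.trans l972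 l973)) (Rg.trans (Rg.trans l974 l975) (Rg.trans l976 l977))) (Rg.trans (Rg.trans l978 (Rg.trans l979 l981)) (Rg.trans (Rg.trans l982 l983) (Rg.trans l985 l986)))) (Rg.trans (Rg.trans (Rg.trans l987 (Rg.trans l988 l989)) (Rg.trans (Rg.trans l990 l991) (Rg.trans l992 l994))) (Rg.trans (Rg.trans l995 (Rg.trans l996 l997)) (Rg.trans (Rg.trans l998 l999) (Rg.trans l1000 l1001))))) (Rg.trans (Rg.trans (Rg.trans (Rg.trans l1002 (Rg.trans l1003 l1004)) (Rg.trans (Rg.trans l1005 l1006) (Rg.trans l1007 l1008))) (Rg.trans (Rg.trans l1009 (Rg.trans l1010 l1011)) (Rg.trans (Rg.trans l1012 l1013) (Rg.trans l1014 l1015)))) (Rg.trans (Rg.trans (Rg.trans l1016 (Rg.trans l1017 l1018)) (Rg.trans (Rg.trans l1019 l1020) (Rg.trans l1022 l1023))) (Rg.trans (Rg.trans l1024 (Rg.trans l1026 l1027)) (Rg.trans (Rg.trans l1028 l1029) (Rg.trans l1030 l1031)))))) (Rg.trans (Rg.trans (Rg.trans (Rg.trans (Rg.trans l1032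 (Rg.trans l1033 l1034)) (Rg.trans (Rg.trans l1035 l1036) (Rg.trans l1037 l1038))) (Rg.trans (Rg.trans l1039 (Rg.trans l1040 l1041)) (Rg.trans (Rg.trans l1042 l1043) (Rg.trans l1044 l1045)))) (Rg.trans (Rg.trans (Rg.trans l1046 (Rg.trans l1048 l1049)) (Rg.trans (Rg.trans l1050 l1051) (Rg.trans l1052 l1053))) (Rg.trans (Rg.trans l1054 (Rg.trans l1056 l1057)) (Rg.trans (Rg.trans l1058 l1059) (Rg.trans l1060 l1061))))) (Rg.trans (Rg.trans (Rg.trans (Rg.trans l1062 (Rg.trans l1063 l1064)) (Rg.trans (Rg.trans l1065 l1066) (Rg.trans l1067 l1068))) (Rg.trans (Rg.trans l1069 (Rg.trans l1070 l1071)) (Rg.trans (Rg.trans l1072 l1073) (Rg.trans l1074 l1075)))) (Rg.trans (Rg.trans (Rg.trans l1076 (Rg.trans l1077 l1078)) (Rg.trans (Rg.trans l1079 l1080) (Rg.trans l1081 l1082))) (Rg.trans (Rg.trans l1083 (Rg.trans l1084 l1085)) (Rg.trans (Rg.trans l1086 l1087) (Rg.trans l1088 l1089))))))) (Rg.trans (Rg.trans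 (Rg.trans (Rg.trans (Rg.trans (Rg.trans l1090 (Rg.trans l1091 l1092)) (Rg.trans (Rg.trans l1093 l1094) (Rg.trans l1095 l1096))) (Rg.trans (Rg.trans l1097 (Rg.trans l1099 l1100)) (Rg.trans (Rg.trans l1101 l1102) (Rg.trans l1103 l1104)))) (Rg.trans (Rg.trans (Rg.trans l1105 (Rg.trans l1106 l1107)) (Rg.trans (Rg.trans l1108 l1109) (Rg.trans l1110 l1111))) (Rg.trans (Rg.trans l1112 (Rg.trans l1113 l1114)) (Rg.trans (Rg.trans l1115 l1116) (Rg.trans l1117 l1118))))) (Rg.trans (Rg.trans (Rg.trans (Rg.trans l1119 (Rg.trans l1120 l1121)) (Rg.trans (Rg.trans l1122 l1123) (Rg.trans l1124 l1125))) (Rg.trans (Rg.trans l1126 (Rg.trans l1127 l1128)) (Rg.trans (Rg.trans l1129 l1130) (Rg.trans l1131 l1132)))) (Rg.trans (Rg.trans (Rg.trans l1133 (Rg.trans l1134 l1135)) (Rg.trans (Rg.trans l1136 l1137) (Rg.trans l1138 l1139))) (Rg.trans (Rg.trans l1140 (Rg.trans l1141 l1143)) (Rg.trans (Rg.trans l1145 l1147)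 (Rg.trans l1148 l1150)))))) (Rg.trans (Rg.trans (Rg.trans (Rg.trans (Rg.trans l1151 (Rg.trans l1153 l1155)) (Rg.trans (Rg.trans l1156 l1160) (Rg.trans l1161 l1163))) (Rg.trans (Rg.trans l1164 (Rg.trans l1165 l1167)) (Rg.trans (Rg.trans l1168 l1169) (Rg.trans l1171 l1172)))) (Rg.trans (Rg.trans (Rg.trans l1175 (Rg.trans l1177 l1178)) (Rg.trans (Rg.trans l1179 l1181) (Rg.trans l1182 l1183))) (Rg.trans (Rg.trans l1185 (Rg.trans l1186 l1187)) (Rg.trans (Rg.trans l1188 l1189) (Rg.trans l1190 l1191))))) (Rg.trans (Rg.trans (Rg.trans (Rg.trans l1192 (Rg.trans l1193 l1194)) (Rg.trans (Rg.trans l1195 l1196) (Rg.trans l1197 l1198))) (Rg.trans (Rg.trans l1199 (Rg.trans l1201 l1203)) (Rg.trans (Rg.trans l1205 l1206) (Rg.trans l1207 l1208)))) (Rg.trans (Rg.trans (Rg.trans l1210 (Rg.trans l1211 l1212)) (Rg.trans (Rg.trans l1213 l1214) (Rg.trans l1215 l1216))) (Rg.trans (Rg.trans l1217 (Rg.trans l1218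 l1219)) (Rg.trans (Rg.trans l1221 l1222) (Rg.trans l1224 l1225)))))))) (Rg.trans (Rg.trans (Rg.trans (Rg.trans (Rg.trans (Rg.trans (Rg.trans l1226 (Rg.trans l1227 l1229)) (Rg.trans (Rg.trans l1230 l1232) (Rg.trans l1233 l1235))) (Rg.trans (Rg.trans l1236 (Rg.trans l1237 l1238)) (Rg.trans (Rg.trans l1239 l1240) (Rg.trans l1241 l1242)))) (Rg.trans (Rg.trans (Rg.trans l1243 (Rg.trans l1245 l1246)) (Rg.trans (Rg.trans l1247 l1249) (Rg.trans l1250 l1251))) (Rg.trans (Rg.trans l1252 (Rg.trans l1253 l1254)) (Rg.trans (Rg.trans l1256 l1257) (Rg.trans l1259 l1260))))) (Rg.trans (Rg.trans (Rg.trans (Rg.trans l1261 (Rg.trans l1262 l1263)) (Rg.trans (Rg.trans l1264 l1265) (Rg.trans l1266 l1267))) (Rg.trans (Rg.trans l1268 (Rg.trans l1269 l1270)) (Rg.trans (Rg.trans l1271 l1272) (Rg.trans l1273 l1274)))) (Rg.trans (Rg.trans (Rg.trans l1275 (Rg.trans l1276 l1277)) (Rg.trans (Rg.trans l1279 l1280) (Rg.trans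 l1281 l1282))) (Rg.trans (Rg.trans l1283 (Rg.trans l1284 l1285)) (Rg.trans (Rg.trans l1286 l1287) (Rg.trans l1289 l1290)))))) (Rg.trans (Rg.trans (Rg.trans (Rg.trans (Rg.trans l1292 (Rg.trans l1293 l1294)) (Rg.trans (Rg.trans l1295 l1296) (Rg.trans l1297 l1298))) (Rg.trans (Rg.trans l1299 (Rg.trans l1300 l1301)) (Rg.trans (Rg.trans l1302 l1303) (Rg.trans l1305 l1306)))) (Rg.trans (Rg.trans (Rg.trans l1307 (Rg.trans l1308 l1309)) (Rg.trans (Rg.trans l1310 l1312) (Rg.trans l1313 l1314))) (Rg.trans (Rg.trans l1315 (Rg.trans l1316 l1317)) (Rg.trans (Rg.trans l1319 l1320) (Rg.trans l1321 l1322))))) (Rg.trans (Rg.trans (Rg.trans (Rg.trans l1323 (Rg.trans l1324 l1326)) (Rg.trans (Rg.trans l1327 l1328) (Rg.trans l1329 l1330))) (Rg.trans (Rg.trans l1332 (Rg.trans l1333 l1334)) (Rg.trans (Rg.trans l1336 l1337) (Rg.trans l1338 l1340)))) (Rg.trans (Rg.trans (Rg.trans l1341 (Rg.trans l1343 l1344))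 (Rg.trans (Rg.trans l1345 l1346) (Rg.trans l1347 l1348))) (Rg.trans (Rg.trans l1349 (Rg.trans l1350 l1351)) (Rg.trans (Rg.trans l1352 l1353) (Rg.trans l1355 l1356))))))) (Rg.trans (Rg.trans (Rg.trans (Rg.trans (Rg.trans (Rg.trans l1357 (Rg.trans l1359 l1360)) (Rg.trans (Rg.trans l1361 l1362) (Rg.trans l1363 l1364))) (Rg.trans (Rg.trans l1365 (Rg.trans l1367 l1368)) (Rg.trans (Rg.trans l1369 l1370) (Rg.trans l1371 l1372)))) (Rg.trans (Rg.trans (Rg.trans l1373 (Rg.trans l1374 l1376)) (Rg.trans (Rg.trans l1377 l1379) (Rg.trans l1380 l1382))) (Rg.trans (Rg.trans l1383 (Rg.trans l1385 l1386)) (Rg.trans (Rg.trans l1388 l1389) (Rg.trans l1390 l1391))))) (Rg.trans (Rg.trans (Rg.trans (Rg.trans l1392 (Rg.trans l1394 l1395)) (Rg.trans (Rg.trans l1397 l1398) (Rg.trans l1400 l1401))) (Rg.trans (Rg.trans l1403 (Rg.trans l1404 l1406)) (Rg.trans (Rg.trans l1407 l1408) (Rg.trans l1409 l1410)))) (Rg.trans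 (Rg.trans (Rg.trans l1411 (Rg.trans l1412 l1413)) (Rg.trans (Rg.trans l1414 l1415) (Rg.trans l1416 l1417))) (Rg.trans (Rg.trans l1418 (Rg.trans l1419 l1421)) (Rg.trans (Rg.trans l1422 l1424) (Rg.trans l1425 l1426)))))) (Rg.trans (Rg.trans (Rg.trans (Rg.trans (Rg.trans l1427 (Rg.trans l1428 l1429)) (Rg.trans (Rg.trans l1431 l1432) (Rg.trans l1433 l1434))) (Rg.trans (Rg.trans l1436 (Rg.trans l1437 l1439)) (Rg.trans (Rg.trans l1440 l1441) (Rg.trans l1443 l1444)))) (Rg.trans (Rg.trans (Rg.trans l1446 (Rg.trans l1447 l1449)) (Rg.trans (Rg.trans l1450 l1452) (Rg.trans l1453 l1455))) (Rg.trans (Rg.trans l1456 (Rg.trans l1457 l1458)) (Rg.trans (Rg.trans l1459 l1460) (Rg.trans l1461 l1462))))) (Rg.trans (Rg.trans (Rg.trans (Rg.trans l1463 (Rg.trans l1464 l1465)) (Rg.trans (Rg.trans l1466 l1467) (Rg.trans l1468 l1469))) (Rg.trans (Rg.trans l1470 (Rg.trans l1471 l1472)) (Rg.trans (Rg.trans l1473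 l1475) (Rg.trans l1476 l1477)))) (Rg.trans (Rg.trans (Rg.trans l1479 (Rg.trans l1480 l1481)) (Rg.trans (Rg.trans l1483 l1484) (Rg.trans l1485 l1487))) (Rg.trans (Rg.trans (Rg.trans l1488 l1490) (Rg.trans l1491 l1493)) (Rg.trans (Rg.trans l1494 l1496) (Rg.trans l1497 l1499))))))))) (Rg.trans (Rg.trans (Rg.trans (Rg.trans (Rg.trans (Rg.trans (Rg.trans (Rg.trans l1500 (Rg.trans l1501 l1503)) (Rg.trans (Rg.trans l1504 l1505) (Rg.trans l1506 l1507))) (Rg.trans (Rg.trans l1508 (Rg.trans l1509 l1510)) (Rg.trans (Rg.trans l1511 l1513) (Rg.trans l1514 l1516)))) (Rg.trans (Rg.trans (Rg.trans l1517 (Rg.trans l1519 l1520)) (Rg.trans (Rg.trans l1521 l1522) (Rg.trans l1523 l1524))) (Rg.trans (Rg.trans l1525 (Rg.trans l1526 l1527)) (Rg.trans (Rg.trans l1528 l1529) (Rg.trans l1530 l1531))))) (Rg.trans (Rg.trans (Rg.trans (Rg.trans l1532 (Rg.trans l1534 l1535)) (Rg.trans (Rg.trans l1537 l1538) (Rg.trans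 l1540 l1541))) (Rg.trans (Rg.trans l1542 (Rg.trans l1543 l1544)) (Rg.trans (Rg.trans l1545 l1546) (Rg.trans l1547 l1549)))) (Rg.trans (Rg.trans (Rg.trans l1550 (Rg.trans l1552 l1553)) (Rg.trans (Rg.trans l1555 l1556) (Rg.trans l1557 l1558))) (Rg.trans (Rg.trans l1559 (Rg.trans l1560 l1561)) (Rg.trans (Rg.trans l1562 l1563) (Rg.trans l1564 l1565)))))) (Rg.trans (Rg.trans (Rg.trans (Rg.trans (Rg.trans l1566 (Rg.trans l1567 l1568)) (Rg.trans (Rg.trans l1569 l1570) (Rg.trans l1572 l1573))) (Rg.trans (Rg.trans l1574 (Rg.trans l1575 l1576)) (Rg.trans (Rg.trans l1577 l1579) (Rg.trans l1580 l1582)))) (Rg.trans (Rg.trans (Rg.trans l1583 (Rg.trans l1584 l1585)) (Rg.trans (Rg.trans l1586 l1587) (Rg.trans l1589 l1590))) (Rg.trans (Rg.trans l1591 (Rg.trans l1592 l1593)) (Rg.trans (Rg.trans l1594 l1595) (Rg.trans l1596 l1597))))) (Rg.trans (Rg.trans (Rg.trans (Rg.trans l1598 (Rg.trans l1599 l1600))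 (Rg.trans (Rg.trans l1601 l1602) (Rg.trans l1603 l1604))) (Rg.trans (Rg.trans l1605 (Rg.trans l1606 l1607)) (Rg.trans (Rg.trans l1608 l1609) (Rg.trans l1611 l1612)))) (Rg.trans (Rg.trans (Rg.trans l1614 (Rg.trans l1615 l1617)) (Rg.trans (Rg.trans l1618 l1619) (Rg.trans l1620 l1621))) (Rg.trans (Rg.trans l1622 (Rg.trans l1623 l1624)) (Rg.trans (Rg.trans l1625 l1626) (Rg.trans l1627 l1628))))))) (Rg.trans (Rg.trans (Rg.trans (Rg.trans (Rg.trans (Rg.trans l1629 (Rg.trans l1630 l1631)) (Rg.trans (Rg.trans l1632 l1633) (Rg.trans l1634 l1635))) (Rg.trans (Rg.trans l1636 (Rg.trans l1637 l1638)) (Rg.trans (Rg.trans l1639 l1640) (Rg.trans l1641 l1642)))) (Rg.trans (Rg.trans (Rg.trans l1643 (Rg.trans l1644 l1645)) (Rg.trans (Rg.trans l1646 l1647) (Rg.trans l1648 l1649))) (Rg.trans (Rg.trans l1650 (Rg.trans l1651 l1652)) (Rg.trans (Rg.trans l1653 l1654) (Rg.trans l1655 l1656))))) (Rg.trans (Rg.trans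 (Rg.trans (Rg.trans l1657 (Rg.trans l1658 l1659)) (Rg.trans (Rg.trans l1660 l1661) (Rg.trans l1662 l1663))) (Rg.trans (Rg.trans l1664 (Rg.trans l1665 l1666)) (Rg.trans (Rg.trans l1667 l1668) (Rg.trans l1669 l1670)))) (Rg.trans (Rg.trans (Rg.trans l1671 (Rg.trans l1672 l1673)) (Rg.trans (Rg.trans l1674 l1675) (Rg.trans l1676 l1677))) (Rg.trans (Rg.trans l1678 (Rg.trans l1679 l1680)) (Rg.trans (Rg.trans l1681 l1682) (Rg.trans l1683 l1684)))))) (Rg.trans (Rg.trans (Rg.trans (Rg.trans (Rg.trans l1685 (Rg.trans l1686 l1687)) (Rg.trans (Rg.trans l1688 l1689) (Rg.trans l1690 l1691))) (Rg.trans (Rg.trans l1692 (Rg.trans l1693 l1694)) (Rg.trans (Rg.trans l1695 l1696) (Rg.trans l1697 l1698)))) (Rg.trans (Rg.trans (Rg.trans l1699 (Rg.trans l1700 l1702)) (Rg.trans (Rg.trans l1703 l1704) (Rg.trans l1705 l1706))) (Rg.trans (Rg.trans l1707 (Rg.trans l1708 l1709)) (Rg.trans (Rg.trans l1710 l1711) (Rg.trans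 l1712 l1713))))) (Rg.trans (Rg.trans (Rg.trans (Rg.trans l1714 (Rg.trans l1715 l1716)) (Rg.trans (Rg.trans l1717 l1718) (Rg.trans l1719 l1720))) (Rg.trans (Rg.trans l1721 (Rg.trans l1722 l1723)) (Rg.trans (Rg.trans l1724 l1725) (Rg.trans l1726 l1727)))) (Rg.trans (Rg.trans (Rg.trans l1728 (Rg.trans l1729 l1730)) (Rg.trans (Rg.trans l1731 l1732) (Rg.trans l1733 l1734))) (Rg.trans (Rg.trans l1735 (Rg.trans l1736 l1737)) (Rg.trans (Rg.trans l1738 l1739) (Rg.trans l1740 l1741)))))))) (Rg.trans (Rg.trans (Rg.trans (Rg.trans (Rg.trans (Rg.trans (Rg.trans l1742 (Rg.trans l1743 l1744)) (Rg.trans (Rg.trans l1745 l1746) (Rg.trans l1747 l1748))) (Rg.trans (Rg.trans l1749 (Rg.trans l1750 l1751)) (Rg.trans (Rg.trans l1752 l1753) (Rg.trans l1754 l1755)))) (Rg.trans (Rg.trans (Rg.trans l1756 (Rg.trans l1757 l1758)) (Rg.trans (Rg.trans l1759 l1760) (Rg.trans l1761 l1762))) (Rg.trans (Rg.trans l1763 (Rg.trans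 l1764 l1765)) (Rg.trans (Rg.trans l1766 l1767) (Rg.trans l1768 l1769))))) (Rg.trans (Rg.trans (Rg.trans (Rg.trans l1770 (Rg.trans l1771 l1772)) (Rg.trans (Rg.trans l1773 l1774) (Rg.trans l1775 l1776))) (Rg.trans (Rg.trans l1777 (Rg.trans l1778 l1779)) (Rg.trans (Rg.trans l1780 l1781) (Rg.trans l1782 l1783)))) (Rg.trans (Rg.trans (Rg.trans l1784 (Rg.trans l1785 l1786)) (Rg.trans (Rg.trans l1787 l1788) (Rg.trans l1789 l1790))) (Rg.trans (Rg.trans l1792 (Rg.trans l1793 l1794)) (Rg.trans (Rg.trans l1795 l1796) (Rg.trans l1797 l1798)))))) (Rg.trans (Rg.trans (Rg.trans (Rg.trans (Rg.trans l1799 (Rg.trans l1800 l1801)) (Rg.trans (Rg.trans l1802 l1803) (Rg.trans l1804 l1805))) (Rg.trans (Rg.trans l1806 (Rg.trans l1807 l1808)) (Rg.trans (Rg.trans l1809 l1810) (Rg.trans l1811 l1812)))) (Rg.trans (Rg.trans (Rg.trans l1813 (Rg.trans l1814 l1815)) (Rg.trans (Rg.trans l1816 l1817) (Rg.trans l1818 l1819)))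 (Rg.trans (Rg.trans l1820 (Rg.trans l1821 l1822)) (Rg.trans (Rg.trans l1823 l1824) (Rg.trans l1825 l1826))))) (Rg.trans (Rg.trans (Rg.trans (Rg.trans l1827 (Rg.trans l1828 l1829)) (Rg.trans (Rg.trans l1830 l1831) (Rg.trans l1832 l1833))) (Rg.trans (Rg.trans l1834 (Rg.trans l1835 l1836)) (Rg.trans (Rg.trans l1837 l1838) (Rg.trans l1839 l1840)))) (Rg.trans (Rg.trans (Rg.trans l1841 (Rg.trans l1842 l1843)) (Rg.trans (Rg.trans l1844 l1845) (Rg.trans l1846 l1847))) (Rg.trans (Rg.trans l1848 (Rg.trans l1849 l1850)) (Rg.trans (Rg.trans l1851 l1852) (Rg.trans l1853 l1854))))))) (Rg.trans (Rg.trans (Rg.trans (Rg.trans (Rg.trans (Rg.trans l1855 (Rg.trans l1857 l1858)) (Rg.trans (Rg.trans l1860 l1861) (Rg.trans l1862 l1863))) (Rg.trans (Rg.trans l1864 (Rg.trans l1865 l1866)) (Rg.trans (Rg.trans l1867 l1868) (Rg.trans l1869 l1870)))) (Rg.trans (Rg.trans (Rg.trans l1871 (Rg.trans l1872 l1873)) (Rg.trans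 (Rg.trans l1874 l1875) (Rg.trans l1876 l1877))) (Rg.trans (Rg.trans l1878 (Rg.trans l1879 l1880)) (Rg.trans (Rg.trans l1881 l1882) (Rg.trans l1883 l1884))))) (Rg.trans (Rg.trans (Rg.trans (Rg.trans l1885 (Rg.trans l1886 l1887)) (Rg.trans (Rg.trans l1888 l1889) (Rg.trans l1890 l1891))) (Rg.trans (Rg.trans l1892 (Rg.trans l1893 l1894)) (Rg.trans (Rg.trans l1895 l1896) (Rg.trans l1897 l1898)))) (Rg.trans (Rg.trans (Rg.trans l1899 (Rg.trans l1900 l1901)) (Rg.trans (Rg.trans l1902 l1903) (Rg.trans l1904 l1905))) (Rg.trans (Rg.trans l1906 (Rg.trans l1907 l1908)) (Rg.trans (Rg.trans l1909 l1910) (Rg.trans l1911 l1912)))))) (Rg.trans (Rg.trans (Rg.trans (Rg.trans (Rg.trans l1913 (Rg.trans l1914 l1915)) (Rg.trans (Rg.trans l1916 l1917) (Rg.trans l1918 l1919))) (Rg.trans (Rg.trans l1920 (Rg.trans l1921 l1922)) (Rg.trans (Rg.trans l1923 l1924) (Rg.trans l1925 l1926)))) (Rg.trans (Rg.trans (Rg.trans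 l1927 (Rg.trans l1928 l1929)) (Rg.trans (Rg.trans l1930 l1931) (Rg.trans l1932 l1933))) (Rg.trans (Rg.trans l1934 (Rg.trans l1935 l1936)) (Rg.trans (Rg.trans l1937 l1938) (Rg.trans l1939 l1940))))) (Rg.trans (Rg.trans (Rg.trans (Rg.trans l1941 (Rg.trans l1942 l1943)) (Rg.trans (Rg.trans l1944 l1945) (Rg.trans l1946 l1947))) (Rg.trans (Rg.trans l1948 (Rg.trans l1949 l1950)) (Rg.trans (Rg.trans l1951 l1952) (Rg.trans l1953 l1954)))) (Rg.trans (Rg.trans (Rg.trans l1955 (Rg.trans l1956 l1957)) (Rg.trans (Rg.trans l1958 l1959) (Rg.trans l1960 l1961))) (Rg.trans (Rg.trans (Rg.trans l1962 l1963) (Rg.trans l1964 l1965)) (Rg.trans (Rg.trans l1966 l1967) (Rg.trans l1968 l1969)))))))))))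

theorem allNode : Rg (fun i => nodeOK (ntGet nt i) = true) 0 491 :=
  (Rg.trans (Rg.trans (Rg.trans (Rg.trans (Rg.trans n0 (Rg.trans n10 n20)) (Rg.trans n30 (Rg.trans n40 n50))) (Rg.trans (Rg.trans n60 (Rg.trans n70 n80)) (Rg.trans n90 (Rg.trans n100 n110)))) (Rg.trans (Rg.trans (Rg.trans n120 (Rg.trans n130 n140)) (Rg.trans n150 (Rg.trans n160 n170))) (Rg.trans (Rg.trans n180 (Rg.trans n190 n200)) (Rg.trans (Rg.trans n210 n220) (Rg.trans n230 n240))))) (Rg.trans (Rg.trans (Rg.trans (Rg.trans n250 (Rg.trans n260 n270)) (Rg.trans n280 (Rg.trans n290 n300))) (Rg.trans (Rg.trans n310 (Rg.trans n320 n330)) (Rg.trans n340 (Rg.trans n350 n360)))) (Rg.trans (Rg.trans (Rg.trans n370 (Rg.trans n380 n390)) (Rg.trans n400 (Rg.trans n410 n420))) (Rg.trans (Rg.trans n430 (Rg.trans n440 n450)) (Rg.trans (Rg.trans n460 n470) (Rg.trans n480 n490))))))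

theorem allRoot : Rg (fun p => rootE (ntGet nt 0) (ctGet ct 1969).kt eR p 39 = true) 0 39 :=
  (Rg.trans (Rg.trans (Rg.trans (Rg.trans (Rg.trans (Rg.one 0 1 rfl r0) (Rg.one 1 2 rfl r1)) (Rg.trans (Rg.one 2 3 rfl r2) (Rg.one 3 4 rfl r3))) (Rg.trans (Rg.trans (Rg.one 4 5 rfl r4) (Rg.one 5 6 rfl r5)) (Rg.trans (Rg.one 6 7 rfl r6) (Rg.trans (Rg.one 7 8 rfl r7) (Rg.one 8 9 rfl r8))))) (Rg.trans (Rg.trans (Rg.trans (Rg.one 9 10 rfl r9) (Rg.one 10 11 rfl r10)) (Rg.trans (Rg.one 11 12 rfl r11) (Rg.trans (Rg.one 12 13 rfl r12) (Rg.one 13 14 rfl r13)))) (Rg.trans (Rg.trans (Rg.one 14 15 rfl r14) (Rg.one 15 16 rfl r15)) (Rg.trans (Rg.one 16 17 rfl r16) (Rg.trans (Rg.one 17 18 rfl r17) (Rg.one 18 19 rfl r18)))))) (Rg.trans (Rg.trans (Rg.trans (Rg.trans (Rg.one 19 20 rfl r19) (Rg.one 20 21 rfl r20)) (Rg.trans (Rg.one 21 22 rfl r21) (Rg.trans (Rg.one 22 23 rfl r22) (Rg.one 23 24 rfl r23)))) (Rg.trans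 (Rg.trans (Rg.one 24 25 rfl r24) (Rg.one 25 26 rfl r25)) (Rg.trans (Rg.one 26 27 rfl r26) (Rg.trans (Rg.one 27 28 rfl r27) (Rg.one 28 29 rfl r28))))) (Rg.trans (Rg.trans (Rg.trans (Rg.one 29 30 rfl r29) (Rg.one 30 31 rfl r30)) (Rg.trans (Rg.one 31 32 rfl r31) (Rg.trans (Rg.one 32 33 rfl r32) (Rg.one 33 34 rfl r33)))) (Rg.trans (Rg.trans (Rg.one 34 35 rfl r34) (Rg.one 35 36 rfl r35)) (Rg.trans (Rg.one 36 37 rfl r36) (Rg.trans (Rg.one 37 38 rfl r37) (Rg.one 38 39 rfl r38)))))))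

end Pool.Agent.MP_2877d0_al.T.D
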