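import Pool.Agent.MP_2877d0_al.T.D.Ct0
import Pool.Agent.MP_2877d0_al.T.D.Ct1
import Pool.Agent.MP_2877d0_al.T.D.Ct2
import Pool.Agent.MP_2877d0_al.T.D.Ct3
import Pool.Agent.MP_2877d0_al.T.D.Ct4
import Pool.Agent.MP_2877d0_al.T.D.Ct5
import Pool.Agent.MP_2877d0_al.T.D.Ct6
import Pool.Agent.MP_2877d0_al.T.D.Ct7
import Pool.Agent.MP_2877d0_al.T.D.Nt

namespace Pool.Agent.MP_2877d0_al.T.D

set_option maxRecDepth 100000

noncomputable def ct : CT := (CT.node (CT.node (CT.node ct0 ct4) (CT.node ct2 ct6)) (CT.node (CT.node ct1 ct5) (CT.node ct3 ct7)))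

end Pool.Agent.MP_2877d0_al.T.D
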